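import Mathlib
import Pool.Agent.T6.H18.Quat

/-!
# MP_377342_al, Q2: invariant maximal semidefinite extensions with a prescribed spectrum

Let `H` be an invertible skewhermitian quaternion matrix, `A` an `H`-Hamiltonian matrix and `N` an
`A`-invariant `HA`-neutral subspace. For every c-set `S` of `A` which contains all eigenvalues of
`A|N` with nonzero real part there are `A`-invariant subspaces `L₊, L₋ ⊇ N`, maximal
`HA`-nonnegative and maximal `HA`-nonpositive, for which the eigenvalues of `A|L` with nonzero real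
part are exactly the elements of `S`. Nothing is assumed on the invertibility of `A`.

Proof. Let `R` be the sum of the root subspaces of `A` for the eigenvalues in `S`. Root subspaces
of `a` and of an invariant subspace without eigenvalues similar to `-a` are orthogonal for `HA`; so
`N + R` is neutral and extends to an invariant maximal nonnegative subspace `L`. An eigenvector
`x ∈ L` of an eigenvalue `a ∉ S`, `Re a ≠ 0`, is neutral, and `-a ∈ S` since `S` is maximal. By the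
Cauchy-Schwarz inequality `x` is orthogonal to `L`, which contains the root subspace of `-a`; it is
orthogonal to the complementary root subspaces as well, so `x` is in the kernel of `HA`, which is
the kernel of `A`. But `A x = x a ≠ 0`.
-/

set_option autoImplicit false

namespace Pool.Agent.Results.MP_377342_al.PrescribedSpectrum

open Quaternion MulOpposite Matrix Pool.Agent.R713 Pool.Agent.T6.H18

/-- The right quaternionic subspaces of `ℍ^n`. -/
abbrev Sub (n : ℕ) : Type := Submodule ℍ[ℝ]ᵐᵒᵖ (Fin n → ℍ[ℝ])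

/-- `M` is `A`-invariant. -/
def Invariant {n : ℕ} (A : Matrix (Fin n) (Fin n) ℍ[ℝ]) (M : Sub n) : Prop :=
  ∀ x ∈ M, A *ᵥ x ∈ M

/-- `M` is `G`-neutral: `x^* G y = 0` for all `x, y ∈ M`. -/
def Neutral {n : ℕ} (G : Matrix (Fin n) (Fin n) ℍ[ℝ]) (M : Sub n) : Prop :=
  ∀ x ∈ M, ∀ y ∈ M, star x ⬝ᵥ (G *ᵥ y) = 0

/-- `M` is `G`-nonnegative: `x^* G x` is a nonnegative real number for all `x ∈ M`. -/
def Nonneg {n : ℕ} (G : Matrix (Fin n) (Fin n) ℍ[ℝ]) (M : Sub n) : Prop :=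
  ∀ x ∈ M, ∃ r : ℝ, 0 ≤ r ∧ star x ⬝ᵥ (G *ᵥ x) = (r : ℍ[ℝ])

/-- `M` is `G`-nonpositive: `x^* G x` is a nonpositive real number for all `x ∈ M`. -/
def Nonpos {n : ℕ} (G : Matrix (Fin n) (Fin n) ℍ[ℝ]) (M : Sub n) : Prop :=
  ∀ x ∈ M, ∃ r : ℝ, r ≤ 0 ∧ star x ⬝ᵥ (G *ᵥ x) = (r : ℍ[ℝ])

/-- `M` has the property `P` and is not properly contained in another subspace with it. -/
def Maximal {n : ℕ} (P : Sub n → Prop) (M : Sub n) : Prop :=
  P M ∧ ∀ M' : Sub n, M ≤ M' → P M' → M' = M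

/-- The eigenvalues of `A` with an eigenvector in `M`: the `c` with `A x = x c` for some nonzero
`x ∈ M`. For an `A`-invariant `M` these are the eigenvalues of the restriction of `A` to `M`. -/
def eigenvalues {n : ℕ} (A : Matrix (Fin n) (Fin n) ℍ[ℝ]) (M : Sub n) : Set ℍ[ℝ] :=
  {c | ∃ x ∈ M, x ≠ 0 ∧ A *ᵥ x = fun i => x i * c}

/-- The first three properties of a c-set of `A`: the elements of `S` are eigenvalues of `A` with
nonzero real part, `S` is closed under similarity, and `c ∈ S` implies `-c ∉ S`. -/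
def PreCSet {n : ℕ} (A : Matrix (Fin n) (Fin n) ℍ[ℝ]) (S : Set ℍ[ℝ]) : Prop :=
  (∀ c ∈ S, c ∈ eigenvalues A ⊤ ∧ c.re ≠ 0) ∧ (∀ c ∈ S, ∀ q : ℍ[ℝ], q ≠ 0 → q⁻¹ * c * q ∈ S) ∧
    ∀ c ∈ S, -c ∉ S

/-- `S` is a c-set of `A`: it has these three properties and is maximal with them. -/
def IsCSet {n : ℕ} (A : Matrix (Fin n) (Fin n) ℍ[ℝ]) (S : Set ℍ[ℝ]) : Prop :=
  PreCSet A S ∧ ∀ T, PreCSet A T → S ⊆ T → T = S

variable {n : ℕ}

/-- the linear map given by a matrix -/
def lin (A : Matrix (Fin n) (Fin n) ℍ[ℝ]) : Module.End ℍ[ℝ]ᵐᵒᵖ (Fin n → ℍ[ℝ]) where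
  toFun x := A *ᵥ x
  map_add' x y := Matrix.mulVec_add A x y
  map_smul' q x := Matrix.mulVec_smul A q x

theorem qherm (G : Matrix (Fin n) (Fin n) ℍ[ℝ]) (hG : Gᴴ = G) :
    QHerm (fun x y : Fin n → ℍ[ℝ] => star x ⬝ᵥ (G *ᵥ y)) where
  add_right x y z := by
    simp only [Matrix.mulVec_add, dotProduct_add]
  smul_right x y q := by
    simp only [Matrix.mulVec_smul]
    simp only [dotProduct, Pi.smul_apply, op_smul_eq_mul, Finset.sum_mul, mul_assoc]
  symm x y := by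
    rw [Matrix.star_dotProduct, Matrix.star_mulVec, hG, ← Matrix.dotProduct_mulVec]

theorem skew (H A : Matrix (Fin n) (Fin n) ℍ[ℝ]) (hA : H * A = -(Aᴴ * H)) (x y : Fin n → ℍ[ℝ]) :
    star (A *ᵥ x) ⬝ᵥ ((H * A) *ᵥ y) = -(star x ⬝ᵥ ((H * A) *ᵥ (A *ᵥ y))) := by
  have h1 : Aᴴ * (H * A) = -(H * A * A) := by
    rw [← mul_assoc, hA, neg_mul, neg_neg]
  rw [Matrix.star_mulVec, ← Matrix.dotProduct_mulVec, Matrix.mulVec_mulVec, h1,
    Matrix.neg_mulVec, dotProduct_neg, Matrix.mulVec_mulVec]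

instance finiteV : Module.Finite ℍ[ℝ]ᵐᵒᵖ (Fin n → ℍ[ℝ]) := by
  have : Module.Finite ℍ[ℝ]ᵐᵒᵖ ℍ[ℝ] := by
    refine ⟨⟨{1}, ?_⟩⟩
    rw [Submodule.eq_top_iff']
    intro x
    rw [Finset.coe_singleton, Submodule.mem_span_singleton]
    exact ⟨op x, by rw [op_smul_eq_mul, one_mul]⟩
  infer_instance

theorem eig_eq (A : Matrix (Fin n) (Fin n) ℍ[ℝ]) (M : Sub n) : eigenvalues A M = Eig (lin A) M :=
  rfl

theorem main (G A : Matrix (Fin n) (Fin n) ℍ[ℝ]) (hG : Gᴴ = G)
    (hA : ∀ x y, star (A *ᵥ x) ⬝ᵥ (G *ᵥ y) = -(star x ⬝ᵥ (G *ᵥ (A *ᵥ y))))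
    (hker : ∀ x, G *ᵥ x = 0 → A *ᵥ x = 0)
    (N : Sub n) (hN : Invariant A N) (hneu : Neutral G N) (S : Set ℍ[ℝ]) (hS : IsCSet A S)
    (hNS : ∀ c ∈ eigenvalues A N, c.re ≠ 0 → c ∈ S) :
    ∃ L : Sub n, N ≤ L ∧ Invariant A L ∧ Maximal (Nonneg G) L ∧
      {c | c ∈ eigenvalues A L ∧ c.re ≠ 0} = S := by
  have hn : ∀ M : Sub n, Nonneg G M ↔
      QNonneg (fun x y : Fin n → ℍ[ℝ] => star x ⬝ᵥ (G *ᵥ y)) M := by
    intro M
    constructor
    · intro h x hx
      obtain ⟨r, hr, he⟩ := h x hx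
      simp only [he]
      rw [Quaternion.re_coe]
      exact hr
    · intro h x hx
      exact ⟨_, h x hx, (qherm G hG).real x⟩
  obtain ⟨L, h1, h2, h3, h4, h5⟩ := extend_cset (qherm G hG) (lin A) hA
    (by
      intro x hx
      apply hker
      have h0 : ∀ y, star y ⬝ᵥ (G *ᵥ x) = 0 := fun y => by
        have := (qherm G hG).symm x y
        simp only [hx y, star_zero] at this
        exact this
      ext1 i
      have := h0 (Pi.single i 1)
      rw [show star (Pi.single i 1 : Fin n → ℍ[ℝ]) = Pi.single i 1 by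
        rw [Pi.star_single, star_one], single_one_dotProduct] at this
      exact this)
    N hN hneu S hS.1 hS.2 hNS
  exact ⟨L, h1, h2, ⟨(hn L).2 h3, fun M hM hM' => h4 M hM ((hn M).1 hM')⟩, h5⟩

/-- Let `H` be invertible with `H^* = -H`, let `A` be `H`-Hamiltonian, and let `N` be an
`A`-invariant `HA`-neutral subspace. For every c-set `S` of `A` containing the eigenvalues of `A|N`
with nonzero real part, there are `A`-invariant subspaces containing `N` that are maximal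
`HA`-nonnegative and maximal `HA`-nonpositive, respectively, and for each of them the set of the
eigenvalues of `A|L` with nonzero real part equals `S`. -/
theorem result (n : ℕ) (H A : Matrix (Fin n) (Fin n) ℍ[ℝ]) (hH0 : IsUnit H) (hH : Hᴴ = -H)
    (hA : H * A = -(Aᴴ * H)) (N : Sub n) (hN : Invariant A N) (hneu : Neutral (H * A) N)
    (S : Set ℍ[ℝ]) (hS : IsCSet A S) (hNS : {c | c ∈ eigenvalues A N ∧ c.re ≠ 0} ⊆ S) :
    (∃ L : Sub n, N ≤ L ∧ Invariant A L ∧ Maximal (Nonneg (H * A)) L ∧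
      {c | c ∈ eigenvalues A L ∧ c.re ≠ 0} = S) ∧
    (∃ L : Sub n, N ≤ L ∧ Invariant A L ∧ Maximal (Nonpos (H * A)) L ∧
      {c | c ∈ eigenvalues A L ∧ c.re ≠ 0} = S) := by
  have hG : (H * A)ᴴ = H * A := by
    rw [Matrix.conjTranspose_mul, hH, mul_neg, ← hA]
  have hker : ∀ x, (H * A) *ᵥ x = 0 → A *ᵥ x = 0 := by
    intro x hx
    obtain ⟨u, hu⟩ := hH0
    have h1 : (↑u⁻¹ : Matrix (Fin n) (Fin n) ℍ[ℝ]) *ᵥ ((H * A) *ᵥ x) = A *ᵥ x := by
      rw [Matrix.mulVec_mulVec, ← mul_assoc, ← hu, Units.inv_mul, one_mul]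
    rw [← h1, hx, Matrix.mulVec_zero]
  have hNS' : ∀ c ∈ eigenvalues A N, c.re ≠ 0 → c ∈ S := fun c h1 h2 => hNS ⟨h1, h2⟩
  refine ⟨main (H * A) A hG (skew H A hA) hker N hN hneu S hS hNS', ?_⟩
  have hG' : (-(H * A))ᴴ = -(H * A) := by rw [Matrix.conjTranspose_neg, hG]
  obtain ⟨L, h1, h2, ⟨h3, h4⟩, h5⟩ := main (-(H * A)) A hG' (by
      intro x y
      rw [Matrix.neg_mulVec, Matrix.neg_mulVec, dotProduct_neg, dotProduct_neg, skew H A hA])
    (fun x hx => hker x (by rwa [Matrix.neg_mulVec, neg_eq_zero] at hx))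
    N hN (by
      intro x hx y hy
      rw [Matrix.neg_mulVec, dotProduct_neg, hneu x hx y hy, neg_zero]) S hS hNS'
  have hn : ∀ M : Sub n, Nonneg (-(H * A)) M ↔ Nonpos (H * A) M := by
    intro M
    constructor
    · intro h x hx
      obtain ⟨r, hr, he⟩ := h x hx
      refine ⟨-r, by linarith, ?_⟩
      rw [Matrix.neg_mulVec, dotProduct_neg] at he
      rw [Quaternion.coe_neg, ← he, neg_neg]
    · intro h x hx
      obtain ⟨r, hr, he⟩ := h x hx
      refine ⟨-r, by linarith, ?_⟩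
      rw [Matrix.neg_mulVec, dotProduct_neg, he, Quaternion.coe_neg]
  exact ⟨L, h1, h2, ⟨(hn L).1 h3, fun M hM hM' => h4 M hM ((hn M).2 hM')⟩, h5⟩

end Pool.Agent.Results.MP_377342_al.PrescribedSpectrum
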